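import Mathlib

/-!
# L-embedded Banach spaces and ideals (definitions of the problem file)
-/

set_option autoImplicit false

namespace Pool.Agent.Helper37.LEmb

/-- `Q` is an L-projection of the Banach space `Z`. -/
def IsLProjection (𝕜 : Type*) [RCLike 𝕜] (Z : Type*) [NormedAddCommGroup Z] [NormedSpace 𝕜 Z]
    (Q : Z →L[𝕜] Z) : Prop :=
  (∀ z : Z, Q (Q z) = Q z) ∧ ∀ z : Z, ‖z‖ = ‖Q z‖ + ‖z - Q z‖

/-- `Q` is an L-projection of the bidual of `X` whose range is the canonical copy of `X`. -/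
def IsLProjectionOnto (𝕜 : Type*) [RCLike 𝕜] (X : Type*) [NormedAddCommGroup X] [NormedSpace 𝕜 X]
    (Q : StrongDual 𝕜 (StrongDual 𝕜 X) →L[𝕜] StrongDual 𝕜 (StrongDual 𝕜 X)) : Prop :=
  IsLProjection 𝕜 (StrongDual 𝕜 (StrongDual 𝕜 X)) Q ∧ Set.range Q = Set.range (NormedSpace.inclusionInDoubleDual 𝕜 X)

/-- `X` is L-embedded: it is an L-summand of its bidual. -/
def IsLEmbedded (𝕜 : Type*) [RCLike 𝕜] (X : Type*) [NormedAddCommGroup X] [NormedSpace 𝕜 X] :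
    Prop :=
  ∃ Q : StrongDual 𝕜 (StrongDual 𝕜 X) →L[𝕜] StrongDual 𝕜 (StrongDual 𝕜 X),
    IsLProjectionOnto 𝕜 X Q

/-- The subspace `W` is an ideal in `X`: its annihilator is the kernel of a projection of norm at
most one on the dual of `X`. -/
def IsIdeal {𝕜 : Type*} [RCLike 𝕜] {X : Type*} [NormedAddCommGroup X] [NormedSpace 𝕜 X]
    (W : Submodule 𝕜 X) : Prop :=
  ∃ P : StrongDual 𝕜 X →L[𝕜] StrongDual 𝕜 X,
    (∀ f, P (P f) = P f) ∧ ‖P‖ ≤ 1 ∧ ∀ f : StrongDual 𝕜 X, P f = 0 ↔ ∀ w ∈ W, f w = 0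

/-- The second annihilator of `W` in the bidual of `X`. -/
def biannihilator {𝕜 : Type*} [RCLike 𝕜] {X : Type*} [NormedAddCommGroup X] [NormedSpace 𝕜 X]
    (W : Submodule 𝕜 X) : Set (StrongDual 𝕜 (StrongDual 𝕜 X)) :=
  {Φ | ∀ f : StrongDual 𝕜 X, (∀ w ∈ W, f w = 0) → Φ f = 0}

/-- Every L-projection of the bidual of `X` onto `X` maps the second annihilator of `W` onto `W`. -/
def MapsBiannihilatorOnto {𝕜 : Type*} [RCLike 𝕜] {X : Type*} [NormedAddCommGroup X]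
    [NormedSpace 𝕜 X] (W : Submodule 𝕜 X) : Prop :=
  ∀ Q : StrongDual 𝕜 (StrongDual 𝕜 X) →L[𝕜] StrongDual 𝕜 (StrongDual 𝕜 X),
    IsLProjectionOnto 𝕜 X Q →
      Q '' biannihilator W = NormedSpace.inclusionInDoubleDual 𝕜 X '' (W : Set X)

/-- The canonical embedding of `W` into its bidual factors through `X` as `R ∘ S` with `S` of norm
at most `1 + ε` and `R` of norm at most one. -/
def FactorsThrough (𝕜 : Type*) [RCLike 𝕜] (W : Type*) [NormedAddCommGroup W] [NormedSpace 𝕜 W]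
    (X : Type*) [NormedAddCommGroup X] [NormedSpace 𝕜 X] (ε : ℝ) : Prop :=
  ∃ (S : W →L[𝕜] X) (R : X →L[𝕜] StrongDual 𝕜 (StrongDual 𝕜 W)),
    (∀ w : W, ‖S w‖ ≤ (1 + ε) * ‖w‖) ∧ (∀ x : X, ‖R x‖ ≤ ‖x‖) ∧
    ∀ w : W, R (S w) = NormedSpace.inclusionInDoubleDual 𝕜 W w

end Pool.Agent.Helper37.LEmb
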