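import Mathlib
import Pool.Agent.Helper37.LEmb.Defs

set_option autoImplicit false
open Filter Topology NormedSpace

namespace Pool.Agent.Helper37.LEmb

section dist

variable {𝕜 : Type*} [RCLike 𝕜] {X : Type*} [NormedAddCommGroup X] [NormedSpace 𝕜 X]

/-- Distance to a subspace through functionals vanishing on it. -/
lemma dist_lemma (V : Submodule 𝕜 X) (y : X) (c : ℝ) (hc : 0 ≤ c)
    (h : ∀ f : StrongDual 𝕜 X, (∀ v ∈ V, f v = 0) → ‖f y‖ ≤ c * ‖f‖) (η : ℝ) (hη : 0 < η) :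
    ∃ v ∈ V, ‖y - v‖ < c + η := by
  have h1 : ‖(Submodule.Quotient.mk y : X ⧸ V)‖ ≤ c := by
    refine norm_le_dual_bound 𝕜 _ hc ?_
    intro g
    have h2 := h (g.comp V.mkQL) (by
      intro v hv
      change g (Submodule.Quotient.mk v : X ⧸ V) = 0
      rw [(Submodule.Quotient.mk_eq_zero V).2 hv, map_zero])
    have h3 : ‖g.comp V.mkQL‖ ≤ ‖g‖ := by
      refine ContinuousLinearMap.opNorm_le_bound _ (norm_nonneg _) ?_
      intro x
      change ‖g (Submodule.Quotient.mk x : X ⧸ V)‖ ≤ ‖g‖ * ‖x‖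
      calc ‖g (Submodule.Quotient.mk x : X ⧸ V)‖ ≤ ‖g‖ * ‖(Submodule.Quotient.mk x : X ⧸ V)‖ :=
            g.le_opNorm _
        _ ≤ ‖g‖ * ‖x‖ := by
            gcongr
            exact Submodule.Quotient.norm_mk_le V x
    calc ‖g (Submodule.Quotient.mk y : X ⧸ V)‖ = ‖(g.comp V.mkQL) y‖ := rfl
      _ ≤ c * ‖g.comp V.mkQL‖ := h2
      _ ≤ c * ‖g‖ := by gcongr
  obtain ⟨m, hm, hm2⟩ := Submodule.Quotient.norm_mk_lt (Submodule.Quotient.mk y : X ⧸ V) hη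
  refine ⟨y - m, ?_, ?_⟩
  · rw [Submodule.Quotient.eq] at hm
    have := V.neg_mem hm
    simpa using this
  · rw [sub_sub_cancel]
    linarith

end dist

variable {𝕜 : Type*} [RCLike 𝕜] {Z : Type*} [NormedAddCommGroup Z] [NormedSpace 𝕜 Z]

/-- Approximate L-projections of `Z` onto the subspace `V`. -/
def HasApprox (V : Submodule 𝕜 Z) : Prop :=
  ∀ ε : ℝ, 0 < ε → ∃ U : Z →L[𝕜] Z,
    (∀ v ∈ V, U v = v) ∧
    (∀ z, ‖U z‖ + ‖z - U z‖ ≤ (1 + ε) * ‖z‖) ∧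
    ∀ z, ∃ v ∈ V, ‖U z - v‖ ≤ ε * ‖z‖

/-- Two approximate L-projections are close to each other. -/
lemma approx_close (V : Submodule 𝕜 Z) (U U' : Z →L[𝕜] Z)
    (ε ε' : ℝ) (hε : 0 < ε) (hε' : 0 < ε') (hε1 : ε ≤ 1) (hε1' : ε' ≤ 1)
    (ha : ∀ v ∈ V, U v = v)
    (hb : ∀ z, ‖U z‖ + ‖z - U z‖ ≤ (1 + ε) * ‖z‖)
    (hc : ∀ z, ∃ v ∈ V, ‖U z - v‖ ≤ ε * ‖z‖)
    (ha' : ∀ v ∈ V, U' v = v)
    (hb' : ∀ z, ‖U' z‖ + ‖z - U' z‖ ≤ (1 + ε') * ‖z‖)
    (hc' : ∀ z, ∃ v ∈ V, ‖U' z - v‖ ≤ ε' * ‖z‖)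
    (z : Z) : ‖U z - U' z‖ ≤ 5 * (ε + ε') * ‖z‖ := by
  obtain ⟨a, haV, hw⟩ := hc z
  obtain ⟨a', haV', hw'⟩ := hc' z
  have h1 := hb (z - a')
  rw [map_sub, ha a' haV'] at h1
  have h1' := hb' (z - a)
  rw [map_sub, ha' a haV] at h1'
  have e1 : z - a' - (U z - a') = z - U z := by abel
  have e2 : z - a - (U' z - a) = z - U' z := by abel
  rw [e1] at h1
  rw [e2] at h1'
  have h2 : ‖z - a'‖ ≤ ‖z - U' z‖ + ε' * ‖z‖ := by
    have : z - a' = (z - U' z) + (U' z - a') := by abel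
    rw [this]
    exact (norm_add_le _ _).trans (by linarith)
  have h2' : ‖z - a‖ ≤ ‖z - U z‖ + ε * ‖z‖ := by
    have : z - a = (z - U z) + (U z - a) := by abel
    rw [this]
    exact (norm_add_le _ _).trans (by linarith)
  have hN := norm_nonneg z
  have h3 : ‖z - U z‖ ≤ 2 * ‖z‖ := by
    have := hb z
    have := norm_nonneg (U z)
    nlinarith
  have h3' : ‖z - U' z‖ ≤ 2 * ‖z‖ := by
    have := hb' z
    have := norm_nonneg (U' z)
    nlinarith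
  have h4 : ‖U z - U' z‖ ≤ ‖U z - a'‖ + ε' * ‖z‖ := by
    have : U z - U' z = (U z - a') - (U' z - a') := by abel
    rw [this]
    exact (norm_sub_le _ _).trans (by linarith)
  have h5 : (1 + ε) * ‖z - a'‖ ≤ (1 + ε) * (‖z - U' z‖ + ε' * ‖z‖) :=
    mul_le_mul_of_nonneg_left h2 (by linarith)
  have h5' : (1 + ε') * ‖z - a‖ ≤ (1 + ε') * (‖z - U z‖ + ε * ‖z‖) :=
    mul_le_mul_of_nonneg_left h2' (by linarith)
  have h6 : ε * ‖z - U' z‖ ≤ ε * (2 * ‖z‖) := mul_le_mul_of_nonneg_left h3' hε.le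
  have h6' : ε' * ‖z - U z‖ ≤ ε' * (2 * ‖z‖) := mul_le_mul_of_nonneg_left h3 hε'.le
  have h7 : ε * (ε' * ‖z‖) ≤ 1 * (ε' * ‖z‖) := mul_le_mul_of_nonneg_right hε1 (by positivity)
  have h7' : ε' * (ε * ‖z‖) ≤ 1 * (ε * ‖z‖) := mul_le_mul_of_nonneg_right hε1' (by positivity)
  have h8 := norm_nonneg (U' z - a)
  have h9 : 0 ≤ ε * ‖z‖ := by positivity
  have h9' : 0 ≤ ε' * ‖z‖ := by positivity
  nlinarith

/-- Approximate L-projections onto a closed subspace give an L-projection onto it. -/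
theorem exists_of_hasApprox [CompleteSpace Z] (V : Submodule 𝕜 Z) (hV : IsClosed (V : Set Z))
    (h : HasApprox V) : ∃ Q : Z →L[𝕜] Z, IsLProjection 𝕜 Z Q ∧ ∀ z, z ∈ V ↔ Q z = z := by
  have hpos : ∀ n : ℕ, (0 : ℝ) < 1 / ((n : ℝ) + 1) := fun n => by positivity
  have hle1 : ∀ n : ℕ, 1 / ((n : ℝ) + 1) ≤ (1 : ℝ) := by
    intro n
    rw [div_le_one (by positivity)]
    have : (0 : ℝ) ≤ n := Nat.cast_nonneg n
    linarith
  choose U ha hb hc using fun n : ℕ => h (1 / ((n : ℝ) + 1)) (hpos n)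
  have htend : Tendsto (fun n : ℕ => 1 / ((n : ℝ) + 1)) atTop (𝓝 0) :=
    tendsto_one_div_add_atTop_nhds_zero_nat
  have hclose : ∀ m n : ℕ, ‖U m - U n‖ ≤ 5 * (1 / ((m : ℝ) + 1) + 1 / ((n : ℝ) + 1)) := by
    intro m n
    refine ContinuousLinearMap.opNorm_le_bound _ (by have := hpos m; have := hpos n; positivity) ?_
    intro z
    exact approx_close V (U m) (U n) _ _ (hpos m) (hpos n) (hle1 m) (hle1 n) (ha m) (hb m) (hc m)
      (ha n) (hb n) (hc n) z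
  have hcau : CauchySeq U := by
    refine cauchySeq_of_le_tendsto_0 (fun n : ℕ => 10 * (1 / ((n : ℝ) + 1))) ?_ ?_
    · intro m n N hm hn
      rw [dist_eq_norm]
      refine (hclose m n).trans ?_
      have hm' : 1 / ((m : ℝ) + 1) ≤ 1 / ((N : ℝ) + 1) := by
        apply one_div_le_one_div_of_le (by positivity)
        have : (N : ℝ) ≤ m := by exact_mod_cast hm
        linarith
      have hn' : 1 / ((n : ℝ) + 1) ≤ 1 / ((N : ℝ) + 1) := by
        apply one_div_le_one_div_of_le (by positivity)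
        have : (N : ℝ) ≤ n := by exact_mod_cast hn
        linarith
      linarith
    · simpa using htend.const_mul 10
  obtain ⟨Q, hQ⟩ := cauchySeq_tendsto_of_complete hcau
  have hQp : ∀ z, Tendsto (fun n => U n z) atTop (𝓝 (Q z)) := by
    intro z
    exact ((ContinuousLinearMap.apply 𝕜 Z z).continuous.tendsto Q).comp hQ
  have hfix : ∀ v ∈ V, Q v = v := by
    intro v hv
    refine tendsto_nhds_unique (hQp _) ?_
    simp only [fun n => ha n v hv]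
    exact tendsto_const_nhds
  have hL : ∀ z, ‖Q z‖ + ‖z - Q z‖ ≤ ‖z‖ := by
    intro z
    have h1 : Tendsto (fun n => ‖U n z‖ + ‖z - U n z‖) atTop (𝓝 (‖Q z‖ + ‖z - Q z‖)) :=
      (hQp z).norm.add ((tendsto_const_nhds.sub (hQp z)).norm)
    have h2 : Tendsto (fun n : ℕ => (1 + 1 / ((n : ℝ) + 1)) * ‖z‖) atTop (𝓝 ((1 + 0) * ‖z‖)) :=
      (tendsto_const_nhds.add htend).mul_const _
    have h3 := le_of_tendsto_of_tendsto' h1 h2 (fun n => hb n z)
    linarith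
  have hmem : ∀ z, Q z ∈ V := by
    intro z
    choose w hwV hw using fun n => hc n z
    have h1 : Tendsto (fun n => U n z - w n) atTop (𝓝 0) := by
      rw [tendsto_zero_iff_norm_tendsto_zero]
      refine squeeze_zero (fun n => norm_nonneg _) (fun n => hw n) ?_
      simpa using htend.mul_const ‖z‖
    have h2 : Tendsto w atTop (𝓝 (Q z)) := by
      have := (hQp z).sub h1
      simpa using this
    exact hV.mem_of_tendsto h2 (Filter.Eventually.of_forall hwV)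
  refine ⟨Q, ⟨fun z => hfix _ (hmem z), ?_⟩, ?_⟩
  · intro z
    refine le_antisymm ?_ (hL z)
    have := norm_add_le (Q z) (z - Q z)
    simpa using this
  · intro z
    constructor
    · exact hfix z
    · intro hz
      rw [← hz]
      exact hmem z

/-- A family of almost L-contractions `T` which nearly detect the distance to `V` yields
approximate L-projections (by Cesàro means). -/
theorem hasApprox_of_family (V : Submodule 𝕜 Z)
    (h : ∀ δ : ℝ, 0 < δ → ∃ T : Z →L[𝕜] Z, (∀ v ∈ V, T v = v) ∧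
      (∀ z, ‖T z‖ + ‖z - T z‖ ≤ (1 + δ) * ‖z‖) ∧
      ∀ z, ∀ η : ℝ, 0 < η → ∃ v ∈ V, ‖z - v‖ ≤ 2 * (δ * ‖z‖ + ‖z - T z‖) + η) :
    HasApprox V := by
  intro ε hε
  -- parameters
  obtain ⟨e, he0, he1, he2⟩ : ∃ e : ℝ, 0 < e ∧ e ≤ 1 ∧ 10 * e ≤ ε := by
    refine ⟨min 1 (ε / 10), by positivity, min_le_left _ _, ?_⟩
    have := min_le_right 1 (ε / 10)
    linarith
  obtain ⟨K, hK⟩ := exists_nat_gt (1 / e)
  have hKpos : (0 : ℝ) < K := lt_trans (by positivity) hK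
  have hKe : 1 / (K : ℝ) ≤ e := by
    rw [div_le_iff₀ hKpos]
    rw [div_lt_iff₀ he0] at hK
    linarith
  have hK0 : K ≠ 0 := by
    rintro rfl
    simp at hKpos
  obtain ⟨δ, hδ0, hδe, hδK⟩ : ∃ δ : ℝ, 0 < δ ∧ δ ≤ e ∧ (1 + δ) ^ K ≤ 1 + e := by
    have hcont : Tendsto (fun δ : ℝ => (1 + δ) ^ K) (𝓝 0) (𝓝 ((1 + 0) ^ K)) :=
      (Continuous.tendsto (by fun_prop) 0)
    have h1 : ∀ᶠ δ in 𝓝 (0 : ℝ), (1 + δ) ^ K < 1 + e :=
      hcont.eventually (gt_mem_nhds (by simpa using he0))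
    obtain ⟨r, hr, hball⟩ := Metric.eventually_nhds_iff.mp h1
    refine ⟨min (r / 2) e, by positivity, min_le_right _ _, (hball ?_).le⟩
    rw [Real.dist_eq, sub_zero, abs_of_pos (by positivity)]
    have := min_le_left (r / 2) e
    linarith
  obtain ⟨T, hTa, hTb, hTc⟩ := h δ hδ0
  have hstep : ∀ (n : ℕ) (z : Z), (T ^ (n + 1)) z = T ((T ^ n) z) := by
    intro n z
    rw [pow_succ']
    rfl
  have hs : ∀ (n : ℕ) (z : Z), ‖(T ^ n) z‖ + ‖z - (T ^ n) z‖ ≤ (1 + δ) ^ n * ‖z‖ := by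
    intro n z
    induction n with
    | zero => simp
    | succ n ih =>
      rw [hstep]
      have h1 := hTb ((T ^ n) z)
      have h2 : ‖z - T ((T ^ n) z)‖ ≤ ‖z - (T ^ n) z‖ + ‖(T ^ n) z - T ((T ^ n) z)‖ := by
        have := norm_add_le (z - (T ^ n) z) ((T ^ n) z - T ((T ^ n) z))
        simpa using this
      have h3 : (1 + δ) * (‖(T ^ n) z‖ + ‖z - (T ^ n) z‖) ≤ (1 + δ) * ((1 + δ) ^ n * ‖z‖) :=
        mul_le_mul_of_nonneg_left ih (by linarith)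
      have h4 : 0 ≤ δ * ‖z - (T ^ n) z‖ := by positivity
      have h5 : (1 + δ) ^ (n + 1) * ‖z‖ = (1 + δ) * ((1 + δ) ^ n * ‖z‖) := by ring
      rw [h5]
      linarith
  have hsK : ∀ n : ℕ, n ≤ K → ∀ z : Z, ‖(T ^ n) z‖ + ‖z - (T ^ n) z‖ ≤ (1 + e) * ‖z‖ := by
    intro n hn z
    refine (hs n z).trans (mul_le_mul_of_nonneg_right ?_ (norm_nonneg z))
    exact (pow_le_pow_right₀ (by linarith) hn).trans hδK
  have hKn : ‖((K : 𝕜))⁻¹‖ = 1 / (K : ℝ) := by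
    rw [norm_inv, RCLike.norm_natCast, one_div]
  have hKne : (K : 𝕜) ≠ 0 := by exact_mod_cast hK0
  set U : Z →L[𝕜] Z := ((K : 𝕜))⁻¹ • ∑ k ∈ Finset.range K, T ^ k with hU
  have hUz : ∀ z, U z = ((K : 𝕜))⁻¹ • ∑ k ∈ Finset.range K, (T ^ k) z := by
    intro z
    rw [hU, smul_apply, sum_apply]
  have hconst : ∀ z : Z, z = ((K : 𝕜))⁻¹ • ∑ _k ∈ Finset.range K, z := by
    intro z
    rw [Finset.sum_const, Finset.card_range, ← Nat.cast_smul_eq_nsmul 𝕜, smul_smul,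
      inv_mul_cancel₀ hKne, one_smul]
  have hsub : ∀ z, z - U z = ((K : 𝕜))⁻¹ • ∑ k ∈ Finset.range K, (z - (T ^ k) z) := by
    intro z
    rw [hUz, Finset.sum_sub_distrib, smul_sub, ← hconst]
  have hUb : ∀ z, ‖U z‖ + ‖z - U z‖ ≤ (1 + e) * ‖z‖ := by
    intro z
    rw [hsub, hUz, norm_smul, norm_smul, hKn, ← mul_add]
    have h1 : ‖∑ k ∈ Finset.range K, (T ^ k) z‖ + ‖∑ k ∈ Finset.range K, (z - (T ^ k) z)‖ ≤
        ∑ k ∈ Finset.range K, (‖(T ^ k) z‖ + ‖z - (T ^ k) z‖) := by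
      rw [Finset.sum_add_distrib]
      exact add_le_add (norm_sum_le _ _) (norm_sum_le _ _)
    have h2 : ∑ k ∈ Finset.range K, (‖(T ^ k) z‖ + ‖z - (T ^ k) z‖) ≤ K * ((1 + e) * ‖z‖) := by
      calc ∑ k ∈ Finset.range K, (‖(T ^ k) z‖ + ‖z - (T ^ k) z‖) ≤
          ∑ _k ∈ Finset.range K, (1 + e) * ‖z‖ :=
            Finset.sum_le_sum fun k hk => hsK k (Finset.mem_range.mp hk).le z
        _ = K * ((1 + e) * ‖z‖) := by rw [Finset.sum_const, Finset.card_range, nsmul_eq_mul]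
    calc 1 / (K : ℝ) * (‖∑ k ∈ Finset.range K, (T ^ k) z‖ +
          ‖∑ k ∈ Finset.range K, (z - (T ^ k) z)‖) ≤ 1 / (K : ℝ) * (K * ((1 + e) * ‖z‖)) :=
          mul_le_mul_of_nonneg_left (h1.trans h2) (by positivity)
      _ = (1 + e) * ‖z‖ := by field_simp
  have hUT : ∀ z, ‖U z - T (U z)‖ ≤ e * ((1 + e) * ‖z‖) := by
    intro z
    have h1 : U z - T (U z) = ((K : 𝕜))⁻¹ • (z - (T ^ K) z) := by
      rw [hUz, map_smul, map_sum, ← smul_sub, ← Finset.sum_sub_distrib]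
      congr 1
      have h2 : ∀ k ∈ Finset.range K, (T ^ k) z - T ((T ^ k) z) = (T ^ k) z - (T ^ (k + 1)) z := by
        intro k _
        rw [hstep]
      rw [Finset.sum_congr rfl h2, Finset.sum_range_sub']
      simp
    rw [h1, norm_smul, hKn]
    have h3 := hsK K le_rfl z
    have h4 := norm_nonneg ((T ^ K) z)
    have h5 : ‖z - (T ^ K) z‖ ≤ (1 + e) * ‖z‖ := by linarith
    exact mul_le_mul hKe h5 (norm_nonneg _) he0.le
  refine ⟨U, ?_, ?_, ?_⟩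
  · intro v hv
    have h1 : ∀ k : ℕ, (T ^ k) v = v := by
      intro k
      induction k with
      | zero => simp
      | succ k ih => rw [hstep, ih, hTa v hv]
    rw [hUz]
    simp only [h1]
    exact (hconst v).symm
  · intro z
    refine (hUb z).trans (mul_le_mul_of_nonneg_right ?_ (norm_nonneg z))
    linarith
  · intro z
    by_cases hz : z = 0
    · refine ⟨0, V.zero_mem, ?_⟩
      rw [hz, map_zero]
      simp
    · have hz0 : 0 < ‖z‖ := norm_pos_iff.mpr hz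
      obtain ⟨v, hv, hvd⟩ := hTc (U z) (e * ‖z‖) (by positivity)
      refine ⟨v, hv, hvd.trans ?_⟩
      have h1 := hUT z
      have h2 : ‖U z‖ ≤ (1 + e) * ‖z‖ := by
        have := hUb z
        have := norm_nonneg (z - U z)
        linarith
      have h3 : δ * ‖U z‖ ≤ e * ((1 + e) * ‖z‖) := mul_le_mul hδe h2 (norm_nonneg _) he0.le
      have h4 : e * ((1 + e) * ‖z‖) ≤ e * (2 * ‖z‖) :=
        mul_le_mul_of_nonneg_left (mul_le_mul_of_nonneg_right (by linarith) hz0.le) he0.le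
      have h5 : 10 * e * ‖z‖ ≤ ε * ‖z‖ := mul_le_mul_of_nonneg_right he2 hz0.le
      nlinarith

end Pool.Agent.Helper37.LEmb
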