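import Mathlib

/-!
# L-embedded Banach spaces and ideals (definitions of the problem file)
-/

set_option autoImplicit false

namespace Pool.Agent.Helper37.LEmb

section generic

variable (𝕜 : Type*) [RCLike 𝕜] (Z : Type*) [NormedAddCommGroup Z] [NormedSpace 𝕜 Z]

/-- `Q` is an L-projection of `Z` with range `V`. -/
def LProjOnto (Q : Z →L[𝕜] Z) (V : Set Z) : Prop :=
  (∀ z : Z, Q (Q z) = Q z) ∧ (∀ z : Z, ‖z‖ = ‖Q z‖ + ‖z - Q z‖) ∧ Set.range Q = V

/-- `V` is an L-summand of `Z`. -/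
def LSummand (V : Set Z) : Prop := ∃ Q : Z →L[𝕜] Z, LProjOnto 𝕜 Z Q V

/-- Every L-projection of `Z` onto `V` maps the set `A` onto the set `B`. -/
def LProjMaps (V A B : Set Z) : Prop := ∀ Q : Z →L[𝕜] Z, LProjOnto 𝕜 Z Q V → Q '' A = B

/-- `V` is the kernel of a projection of norm at most one of `Z`. -/
def ContractiveKernel (V : Set Z) : Prop :=
  ∃ P : Z →L[𝕜] Z, (∀ z : Z, P (P z) = P z) ∧ (∀ z : Z, ‖P z‖ ≤ ‖z‖) ∧ {z | P z = 0} = V

/-- The map `i` from `W` to `Z` factors through `X` as `R ∘ S` with `S` of norm at most `1 + ε`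
and `R` of norm at most one. -/
def Factors (W : Type*) [NormedAddCommGroup W] [NormedSpace 𝕜 W] (i : W → Z) (X : Type*)
    [NormedAddCommGroup X] [NormedSpace 𝕜 X] (ε : ℝ) : Prop :=
  ∃ (S : W →L[𝕜] X) (R : X →L[𝕜] Z),
    (∀ w : W, ‖S w‖ ≤ (1 + ε) * ‖w‖) ∧ (∀ x : X, ‖R x‖ ≤ ‖x‖) ∧ ∀ w : W, R (S w) = i w

end generic

/-- The annihilator of the subspace `W`. -/
def annih {𝕜 : Type*} [RCLike 𝕜] {X : Type*} [NormedAddCommGroup X] [NormedSpace 𝕜 X]
    (W : Submodule 𝕜 X) : Set (StrongDual 𝕜 X) := {f | ∀ w ∈ W, f w = 0}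

/-- The second annihilator of `W` in the bidual of `X`. -/
def biannih {𝕜 : Type*} [RCLike 𝕜] {X : Type*} [NormedAddCommGroup X] [NormedSpace 𝕜 X]
    (W : Submodule 𝕜 X) : Set (StrongDual 𝕜 (StrongDual 𝕜 X)) := {Φ | ∀ f ∈ annih W, Φ f = 0}

/-- The canonical embedding of `X` into its bidual: `can 𝕜 X x f = f x`. -/
noncomputable def can (𝕜 : Type*) [RCLike 𝕜] (X : Type*) [NormedAddCommGroup X]
    [NormedSpace 𝕜 X] (x : X) : StrongDual 𝕜 (StrongDual 𝕜 X) :=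
  NormedSpace.inclusionInDoubleDual 𝕜 X x

/-- `X` is L-embedded: it is an L-summand of its bidual. -/
def LEmbedded (𝕜 : Type*) [RCLike 𝕜] (X : Type*) [NormedAddCommGroup X] [NormedSpace 𝕜 X] :
    Prop :=
  LSummand 𝕜 (StrongDual 𝕜 (StrongDual 𝕜 X)) (Set.range (can 𝕜 X))

/-- The subspace `W` is an ideal in `X`. -/
def Ideal {𝕜 : Type*} [RCLike 𝕜] {X : Type*} [NormedAddCommGroup X] [NormedSpace 𝕜 X]
    (W : Submodule 𝕜 X) : Prop := ContractiveKernel 𝕜 (StrongDual 𝕜 X) (annih W)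

/-- Every L-projection of the bidual of `X` onto `X` maps the second annihilator of `W` onto `W`. -/
def MapsBiannihOnto {𝕜 : Type*} [RCLike 𝕜] {X : Type*} [NormedAddCommGroup X] [NormedSpace 𝕜 X]
    (W : Submodule 𝕜 X) : Prop :=
  LProjMaps 𝕜 (StrongDual 𝕜 (StrongDual 𝕜 X)) (Set.range (can 𝕜 X)) (biannih W)
    (can 𝕜 X '' (W : Set X))

/-- The canonical embedding of `W` into its bidual factors through `X` as `R ∘ S` with `S` of norm
at most `1 + ε` and `R` of norm at most one. -/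
def FactorsCan (𝕜 : Type*) [RCLike 𝕜] (W : Type*) [NormedAddCommGroup W] [NormedSpace 𝕜 W]
    (X : Type*) [NormedAddCommGroup X] [NormedSpace 𝕜 X] (ε : ℝ) : Prop :=
  Factors 𝕜 (StrongDual 𝕜 (StrongDual 𝕜 W)) W (can 𝕜 W) X ε

end Pool.Agent.Helper37.LEmb
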