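import Mathlib
import Pool.Agent.Helper37.LEmb.Defs
import Pool.Agent.Helper37.LEmb.Approx

set_option autoImplicit false
open Filter Topology NormedSpace

namespace Pool.Agent.Helper37.LEmb

section adj

variable {𝕜 : Type*} [RCLike 𝕜] {E : Type*} [NormedAddCommGroup E] [NormedSpace 𝕜 E]
  {F : Type*} [NormedAddCommGroup F] [NormedSpace 𝕜 F]

/-- The adjoint operator. -/
noncomputable def adj (A : E →L[𝕜] F) : (F →L[𝕜] 𝕜) →L[𝕜] (E →L[𝕜] 𝕜) :=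
  (ContinuousLinearMap.compL 𝕜 E F 𝕜).flip A

lemma adj_apply (A : E →L[𝕜] F) (f : F →L[𝕜] 𝕜) (x : E) : adj A f x = f (A x) := rfl

lemma norm_adj_apply_le (A : E →L[𝕜] F) (f : F →L[𝕜] 𝕜) : ‖adj A f‖ ≤ ‖A‖ * ‖f‖ := by
  refine ContinuousLinearMap.opNorm_le_bound _ (by positivity) ?_
  intro x
  rw [adj_apply]
  calc ‖f (A x)‖ ≤ ‖f‖ * ‖A x‖ := f.le_opNorm _
    _ ≤ ‖f‖ * (‖A‖ * ‖x‖) := by gcongr; exact A.le_opNorm _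
    _ = ‖A‖ * ‖f‖ * ‖x‖ := by ring

lemma norm_adj_le (A : E →L[𝕜] F) : ‖adj A‖ ≤ ‖A‖ := by
  refine ContinuousLinearMap.opNorm_le_bound _ (norm_nonneg _) ?_
  intro f
  exact norm_adj_apply_le A f

end adj

variable {𝕜 : Type*} [RCLike 𝕜] {W : Type*} [NormedAddCommGroup W] [NormedSpace 𝕜 W]
  {X : Type*} [NormedAddCommGroup X] [NormedSpace 𝕜 X]

/-- The copy of `W` in its bidual as a submodule. -/
noncomputable def copy (𝕜 : Type*) [RCLike 𝕜] (W : Type*) [NormedAddCommGroup W]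
    [NormedSpace 𝕜 W] : Submodule 𝕜 ((W →L[𝕜] 𝕜) →L[𝕜] 𝕜) :=
  LinearMap.range (inclusionInDoubleDual 𝕜 W).toLinearMap

lemma mem_copy (Φ : (W →L[𝕜] 𝕜) →L[𝕜] 𝕜) :
    Φ ∈ copy 𝕜 W ↔ ∃ w : W, inclusionInDoubleDual 𝕜 W w = Φ := by
  unfold copy
  exact LinearMap.mem_range

lemma isClosed_copy [CompleteSpace W] :
    IsClosed (copy 𝕜 W : Set ((W →L[𝕜] 𝕜) →L[𝕜] 𝕜)) := by
  have hiso : Isometry (inclusionInDoubleDualLi (E := W) 𝕜) :=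
    (inclusionInDoubleDualLi (E := W) 𝕜).isometry
  have h1 := hiso.isClosedEmbedding.isClosed_range
  have h2 : (copy 𝕜 W : Set ((W →L[𝕜] 𝕜) →L[𝕜] 𝕜)) =
      Set.range (inclusionInDoubleDualLi (E := W) 𝕜) := by
    ext Φ
    exact mem_copy Φ
  rw [h2]
  exact h1

lemma norm_can (x : X) : ‖inclusionInDoubleDual 𝕜 X x‖ = ‖x‖ :=
  (inclusionInDoubleDualLi (E := X) 𝕜).norm_map x

/-- The data of a factorization of the canonical embedding of `W` through an L-embedded `X`,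
turned into an almost L-contraction of the bidual of `W`. -/
theorem factor_family (S : W →L[𝕜] X) (R : X →L[𝕜] ((W →L[𝕜] 𝕜) →L[𝕜] 𝕜))
    (hRS : ∀ (w : W) (g : W →L[𝕜] 𝕜), R (S w) g = g w) (δ : ℝ) (hδ : 0 < δ)
    (hS : ∀ w, ‖S w‖ ≤ (1 + δ) * ‖w‖) (hR : ∀ x, ‖R x‖ ≤ ‖x‖)
    (Q : ((X →L[𝕜] 𝕜) →L[𝕜] 𝕜) →L[𝕜] ((X →L[𝕜] 𝕜) →L[𝕜] 𝕜))
    (hQ : ∀ Φ, ‖Φ‖ = ‖Q Φ‖ + ‖Φ - Q Φ‖)
    (hQX : ∀ x : X, Q (inclusionInDoubleDual 𝕜 X x) = inclusionInDoubleDual 𝕜 X x)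
    (hQr : ∀ Φ, ∃ x : X, Q Φ = inclusionInDoubleDual 𝕜 X x) :
    ∃ T : ((W →L[𝕜] 𝕜) →L[𝕜] 𝕜) →L[𝕜] ((W →L[𝕜] 𝕜) →L[𝕜] 𝕜),
      (∀ v ∈ copy 𝕜 W, T v = v) ∧
      (∀ z, ‖T z‖ + ‖z - T z‖ ≤ (1 + δ) * ‖z‖) ∧
      ∀ z, ∀ η : ℝ, 0 < η → ∃ v ∈ copy 𝕜 W, ‖z - v‖ ≤ 2 * (δ * ‖z‖ + ‖z - T z‖) + η := by
  -- the extension operator
  let φ : (W →L[𝕜] 𝕜) →L[𝕜] (X →L[𝕜] 𝕜) := R.flip
  have hφ : ∀ g x, φ g x = R x g := fun g x => rfl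
  have hφn : ‖φ‖ ≤ 1 := by
    refine ContinuousLinearMap.opNorm_le_bound _ zero_le_one ?_
    intro g
    rw [one_mul]
    refine ContinuousLinearMap.opNorm_le_bound _ (norm_nonneg _) ?_
    intro x
    rw [hφ]
    calc ‖R x g‖ ≤ ‖R x‖ * ‖g‖ := (R x).le_opNorm g
      _ ≤ ‖x‖ * ‖g‖ := mul_le_mul_of_nonneg_right (hR x) (norm_nonneg g)
      _ = ‖g‖ * ‖x‖ := mul_comm _ _
  have hSn : ‖S‖ ≤ 1 + δ := ContinuousLinearMap.opNorm_le_bound _ (by linarith) hS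
  let J : ((W →L[𝕜] 𝕜) →L[𝕜] 𝕜) →L[𝕜] ((X →L[𝕜] 𝕜) →L[𝕜] 𝕜) := adj (adj S)
  have hJ : ∀ Φ f, J Φ f = Φ (adj S f) := fun Φ f => rfl
  let ψ : ((X →L[𝕜] 𝕜) →L[𝕜] 𝕜) →L[𝕜] ((W →L[𝕜] 𝕜) →L[𝕜] 𝕜) := adj φ
  have hψ : ∀ Φ g, ψ Φ g = Φ (φ g) := fun Φ g => rfl
  have hJn : ∀ Φ, ‖J Φ‖ ≤ (1 + δ) * ‖Φ‖ := by
    intro Φ
    refine (norm_adj_apply_le (adj S) Φ).trans ?_
    exact mul_le_mul_of_nonneg_right ((norm_adj_le S).trans hSn)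
      (ContinuousLinearMap.opNorm_nonneg Φ)
  have hψn : ∀ Φ, ‖ψ Φ‖ ≤ ‖Φ‖ := by
    intro Φ
    refine (norm_adj_apply_le φ Φ).trans ?_
    calc ‖φ‖ * ‖Φ‖ ≤ 1 * ‖Φ‖ :=
          mul_le_mul_of_nonneg_right hφn (ContinuousLinearMap.opNorm_nonneg Φ)
      _ = ‖Φ‖ := one_mul _
  have hSφ : ∀ g, adj S (φ g) = g := by
    intro g
    ext w
    rw [adj_apply, hφ, hRS]
  have hψJ : ∀ Φ, ψ (J Φ) = Φ := by
    intro Φ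
    ext g
    rw [hψ, hJ, hSφ]
  have hJcan : ∀ w : W, J (inclusionInDoubleDual 𝕜 W w) = inclusionInDoubleDual 𝕜 X (S w) := by
    intro w
    ext f
    rw [hJ]
    rfl
  let T : ((W →L[𝕜] 𝕜) →L[𝕜] 𝕜) →L[𝕜] ((W →L[𝕜] 𝕜) →L[𝕜] 𝕜) := ψ.comp (Q.comp J)
  have hT : ∀ Φ, T Φ = ψ (Q (J Φ)) := fun Φ => rfl
  have hTsub : ∀ Φ, Φ - T Φ = ψ (J Φ - Q (J Φ)) := by
    intro Φ
    rw [hT]
    have h := map_sub ψ (J Φ) (Q (J Φ))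
    rw [h, hψJ]
  have h1 : ∀ Φ, ‖T Φ‖ ≤ ‖Q (J Φ)‖ := fun Φ => hψn _
  have h2 : ∀ Φ, ‖Φ - T Φ‖ ≤ ‖J Φ - Q (J Φ)‖ := by
    intro Φ
    rw [hTsub]
    exact hψn _
  have h3 : ∀ Φ, ‖Q (J Φ)‖ + ‖J Φ - Q (J Φ)‖ ≤ (1 + δ) * ‖Φ‖ := by
    intro Φ
    rw [← hQ (J Φ)]
    exact hJn Φ
  have htri : ∀ Φ, ‖Φ‖ ≤ ‖T Φ‖ + ‖Φ - T Φ‖ := by
    intro Φ
    have h := norm_add_le (T Φ) (Φ - T Φ)
    have h' : T Φ + (Φ - T Φ) = Φ := add_sub_cancel (T Φ) Φ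
    rw [h'] at h
    exact h
  refine ⟨T, ?_, ?_, ?_⟩
  · intro v hv
    obtain ⟨w, rfl⟩ := (mem_copy v).mp hv
    rw [hT, hJcan, hQX, ← hJcan, hψJ]
  · intro Φ
    have := h1 Φ
    have := h2 Φ
    have := h3 Φ
    linarith
  · intro Φ η hη
    obtain ⟨x, hx⟩ := hQr (J Φ)
    -- the distance of `x` to the range of `S`
    have hd : ∀ f : StrongDual 𝕜 X, (∀ v ∈ LinearMap.range S.toLinearMap, f v = 0) →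
        ‖f x‖ ≤ ‖J Φ - Q (J Φ)‖ * ‖f‖ := by
      intro f hf
      have e1 : adj S f = 0 := by
        ext w
        rw [adj_apply]
        exact hf _ ⟨w, rfl⟩
      have e2 : (J Φ - Q (J Φ)) f = - f x := by
        rw [hx]
        change J Φ f - inclusionInDoubleDual 𝕜 X x f = - f x
        rw [hJ, e1, map_zero, zero_sub]
        rfl
      have e3 := (J Φ - Q (J Φ)).le_opNorm f
      rw [e2, norm_neg] at e3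
      exact e3
    obtain ⟨v, hv, hvd⟩ := dist_lemma (LinearMap.range S.toLinearMap) x ‖J Φ - Q (J Φ)‖
      (ContinuousLinearMap.opNorm_nonneg _) hd η hη
    obtain ⟨w, rfl⟩ := hv
    have hvd' : ‖x - S w‖ < ‖J Φ - Q (J Φ)‖ + η := hvd
    refine ⟨inclusionInDoubleDual 𝕜 W w, (mem_copy _).mpr ⟨w, rfl⟩, ?_⟩
    have e4 : Φ - inclusionInDoubleDual 𝕜 W w =
        ψ ((J Φ - Q (J Φ)) + inclusionInDoubleDual 𝕜 X (x - S w)) := by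
      have e5 : (J Φ - Q (J Φ)) + inclusionInDoubleDual 𝕜 X (x - S w) =
          J Φ - J (inclusionInDoubleDual 𝕜 W w) := by
        rw [hx, hJcan, map_sub]
        abel
      have h := map_sub ψ (J Φ) (J (inclusionInDoubleDual 𝕜 W w))
      rw [e5, h, hψJ, hψJ]
    have e6 : ‖Φ - inclusionInDoubleDual 𝕜 W w‖ ≤ ‖J Φ - Q (J Φ)‖ + ‖x - S w‖ := by
      rw [e4]
      refine (hψn _).trans ?_
      have h := norm_add_le (J Φ - Q (J Φ)) (inclusionInDoubleDual 𝕜 X (x - S w))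
      rw [norm_can] at h
      exact h
    have e9 := h3 Φ
    have e10 := htri Φ
    have e11 := h1 Φ
    linarith

/-- **Almost contractive factorization.** -/
theorem isLEmbedded_of_factor {𝕜 : Type*} [RCLike 𝕜] {W : Type*} [NormedAddCommGroup W]
    [NormedSpace 𝕜 W] [CompleteSpace W]
    (h : ∀ δ : ℝ, 0 < δ → ∃ T : ((W →L[𝕜] 𝕜) →L[𝕜] 𝕜) →L[𝕜] ((W →L[𝕜] 𝕜) →L[𝕜] 𝕜),
      (∀ v ∈ copy 𝕜 W, T v = v) ∧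
      (∀ z, ‖T z‖ + ‖z - T z‖ ≤ (1 + δ) * ‖z‖) ∧
      ∀ z, ∀ η : ℝ, 0 < η → ∃ v ∈ copy 𝕜 W, ‖z - v‖ ≤ 2 * (δ * ‖z‖ + ‖z - T z‖) + η) :
    IsLEmbedded 𝕜 W := by
  obtain ⟨Q, hQ, hQV⟩ := exists_of_hasApprox (𝕜 := 𝕜) (Z := (W →L[𝕜] 𝕜) →L[𝕜] 𝕜) (copy 𝕜 W)
    isClosed_copy (hasApprox_of_family (𝕜 := 𝕜) (Z := (W →L[𝕜] 𝕜) →L[𝕜] 𝕜) (copy 𝕜 W) h)
  refine ⟨Q, hQ, ?_⟩
  ext Φ
  constructor
  · rintro ⟨Ψ, rfl⟩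
    have h2 := (hQV (Q Ψ)).mpr (hQ.1 Ψ)
    exact (mem_copy _).mp h2
  · intro hΦ
    exact ⟨Φ, (hQV Φ).mp ((mem_copy _).mpr hΦ)⟩

/-- What `IsLProjectionOnto` says pointwise. -/
lemma IsLProjectionOnto.spec {Q : StrongDual 𝕜 (StrongDual 𝕜 X) →L[𝕜] StrongDual 𝕜 (StrongDual 𝕜 X)}
    (h : IsLProjectionOnto 𝕜 X Q) :
    (∀ Φ, ‖Φ‖ = ‖Q Φ‖ + ‖Φ - Q Φ‖) ∧
    (∀ x : X, Q (inclusionInDoubleDual 𝕜 X x) = inclusionInDoubleDual 𝕜 X x) ∧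
    ∀ Φ, ∃ x : X, Q Φ = inclusionInDoubleDual 𝕜 X x := by
  refine ⟨h.1.2, ?_, ?_⟩
  · intro x
    have h1 : inclusionInDoubleDual 𝕜 X x ∈ Set.range Q := by
      rw [h.2]
      exact ⟨x, rfl⟩
    obtain ⟨Ψ, hΨ⟩ := h1
    rw [← hΨ]
    exact h.1.1 Ψ
  · intro Φ
    have h1 : Q Φ ∈ Set.range (inclusionInDoubleDual 𝕜 X) := by
      rw [← h.2]
      exact ⟨Φ, rfl⟩
    obtain ⟨x, hx⟩ := h1
    exact ⟨x, hx.symm⟩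

end Pool.Agent.Helper37.LEmb
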