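import Mathlib
import Pool.Agent.Helper37.LEmb.Defs
import Pool.Agent.Helper37.LEmb.Approx
import Pool.Agent.Helper37.LEmb.Factor

set_option autoImplicit false
open Filter Topology NormedSpace

namespace Pool.Agent.Helper37.LEmb

variable {𝕜 : Type*} [RCLike 𝕜] {X : Type*} [NormedAddCommGroup X] [NormedSpace 𝕜 X]

/-- The contraction of `X` into the bidual of an ideal `W` which extends the canonical embedding
of `W`. -/
theorem exists_contraction (W : Submodule 𝕜 X) (hI : IsIdeal W) :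
    ∃ R : X →L[𝕜] ((W →L[𝕜] 𝕜) →L[𝕜] 𝕜), (∀ (w : W) (g : W →L[𝕜] 𝕜), R w g = g w) ∧
      ∀ x, ‖R x‖ ≤ ‖x‖ := by
  obtain ⟨P, hPP, hP1, hPker⟩ := hI
  have hext : ∀ g : W →L[𝕜] 𝕜, ∃ f : X →L[𝕜] 𝕜, (∀ w : W, f w = g w) ∧ ‖f‖ = ‖g‖ := by
    intro g
    exact exists_extension_norm_eq W g
  choose ext hext1 hext2 using hext
  have hPcongr : ∀ f f' : X →L[𝕜] 𝕜, (∀ w : W, f w = f' w) → P f = P f' := by
    intro f f' h
    have h0 : P (f - f') = 0 := by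
      rw [hPker]
      intro w hw
      have := h ⟨w, hw⟩
      change f w - f' w = 0
      rw [sub_eq_zero]
      exact this
    rw [map_sub, sub_eq_zero] at h0
    exact h0
  have hPres : ∀ (f : X →L[𝕜] 𝕜) (w : W), P f w = f w := by
    intro f w
    have h0 : P (P f - f) = 0 := by
      rw [map_sub, hPP, sub_self]
    rw [hPker] at h0
    have := h0 w w.2
    simpa [sub_eq_zero] using this
  let φ0 : (W →L[𝕜] 𝕜) →ₗ[𝕜] (X →L[𝕜] 𝕜) :=
    { toFun := fun g => P (ext g)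
      map_add' := by
        intro g h
        rw [← map_add]
        refine hPcongr _ _ ?_
        intro w
        simp [hext1]
      map_smul' := by
        intro c g
        rw [RingHom.id_apply, ← map_smul]
        refine hPcongr _ _ ?_
        intro w
        simp [hext1] }
  have hφ0 : ∀ g, ‖φ0 g‖ ≤ 1 * ‖g‖ := by
    intro g
    change ‖P (ext g)‖ ≤ 1 * ‖g‖
    calc ‖P (ext g)‖ ≤ ‖P‖ * ‖ext g‖ := P.le_opNorm _
      _ ≤ 1 * ‖ext g‖ := by gcongr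
      _ = 1 * ‖g‖ := by rw [hext2]
  let φ : (W →L[𝕜] 𝕜) →L[𝕜] (X →L[𝕜] 𝕜) := φ0.mkContinuous 1 hφ0
  have hφres : ∀ (g : W →L[𝕜] 𝕜) (w : W), φ g w = g w := by
    intro g w
    change P (ext g) w = g w
    rw [hPres, hext1]
  let R : X →L[𝕜] ((W →L[𝕜] 𝕜) →L[𝕜] 𝕜) := φ.flip
  refine ⟨R, ?_, ?_⟩
  · intro w g
    exact hφres g w
  · intro x
    refine ContinuousLinearMap.opNorm_le_bound _ (norm_nonneg _) ?_
    intro g
    change ‖φ g x‖ ≤ ‖x‖ * ‖g‖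
    calc ‖φ g x‖ ≤ ‖φ g‖ * ‖x‖ := (φ g).le_opNorm x
      _ ≤ (1 * ‖g‖) * ‖x‖ := mul_le_mul_of_nonneg_right (hφ0 g) (norm_nonneg x)
      _ = ‖x‖ * ‖g‖ := by ring

/-- Ideals in L-embedded spaces are L-embedded. -/
theorem isLEmbedded_of_isIdeal (W : Submodule 𝕜 X) [CompleteSpace W] (hX : IsLEmbedded 𝕜 X)
    (hI : IsIdeal W) : IsLEmbedded 𝕜 W := by
  obtain ⟨Q, hQ⟩ := hX
  obtain ⟨hQL, hQX, hQr⟩ := hQ.spec
  obtain ⟨R, hR1, hR2⟩ := exists_contraction W hI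
  refine isLEmbedded_of_factor ?_
  intro δ hδ
  refine factor_family W.subtypeL R hR1 δ hδ ?_ hR2 Q hQL hQX hQr
  intro w
  have h1 : ‖W.subtypeL w‖ = ‖w‖ := rfl
  rw [h1]
  have : 0 ≤ δ * ‖w‖ := by positivity
  linarith

/-- The norm identity behind the comparison of two L-projections. -/
lemma norm_identity {A : Type*} [NormedAddCommGroup A] [NormedSpace 𝕜 A] {B : Type*}
    [NormedAddCommGroup B] [NormedSpace 𝕜 B] (QA : A →L[𝕜] A) (QB : B →L[𝕜] B) (J : A →L[𝕜] B)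
    (hJ : ∀ a, ‖J a‖ = ‖a‖) (hA : ∀ z, ‖z‖ = ‖QA z‖ + ‖z - QA z‖)
    (hB : ∀ z, ‖z‖ = ‖QB z‖ + ‖z - QB z‖) (Φ a : A) (x : B) (hΦ : QA Φ = 0) (ha : QA a = a)
    (hJa : QB (J a) = J a) (hx : QB (J Φ) = x) : ‖x - J a‖ + ‖J Φ - x‖ = ‖a‖ + ‖Φ‖ := by
  have h1 := hA (Φ - a)
  rw [map_sub, hΦ, ha, zero_sub, norm_neg, sub_neg_eq_add, sub_add_cancel] at h1
  have h2 := hB (J (Φ - a))
  rw [map_sub, map_sub, hx, hJa, sub_sub_sub_cancel_right, ← map_sub, hJ, h1] at h2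
  exact h2.symm

/-- The L-projection of the bidual of `X` maps the second annihilator of an ideal onto the
ideal. -/
theorem image_biannihilator (W : Submodule 𝕜 X)
    (Q : StrongDual 𝕜 (StrongDual 𝕜 X) →L[𝕜] StrongDual 𝕜 (StrongDual 𝕜 X))
    (hQ : IsLProjectionOnto 𝕜 X Q) (hI : IsIdeal W) (hW : IsLEmbedded 𝕜 W) :
    Q '' biannihilator W = inclusionInDoubleDual 𝕜 X '' (W : Set X) := by
  obtain ⟨hQL, hQX, hQr⟩ := hQ.spec
  obtain ⟨R, hR1, hR2⟩ := exists_contraction W hI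
  obtain ⟨QW, hQW⟩ := hW
  obtain ⟨hWL, hWX, hWr⟩ := hQW.spec
  let φ : (W →L[𝕜] 𝕜) →L[𝕜] (X →L[𝕜] 𝕜) := R.flip
  have hφ : ∀ g x, φ g x = R x g := fun g x => rfl
  have hφn : ‖φ‖ ≤ 1 := by
    refine ContinuousLinearMap.opNorm_le_bound _ zero_le_one ?_
    intro g
    rw [one_mul]
    refine ContinuousLinearMap.opNorm_le_bound _ (norm_nonneg _) ?_
    intro x
    rw [hφ]
    calc ‖R x g‖ ≤ ‖R x‖ * ‖g‖ := (R x).le_opNorm g
      _ ≤ ‖x‖ * ‖g‖ := mul_le_mul_of_nonneg_right (hR2 x) (norm_nonneg g)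
      _ = ‖g‖ * ‖x‖ := mul_comm _ _
  let S : W →L[𝕜] X := W.subtypeL
  have hSn : ‖S‖ ≤ 1 := by
    refine ContinuousLinearMap.opNorm_le_bound _ zero_le_one ?_
    intro w
    rw [one_mul]
    exact le_rfl
  let J : ((W →L[𝕜] 𝕜) →L[𝕜] 𝕜) →L[𝕜] ((X →L[𝕜] 𝕜) →L[𝕜] 𝕜) := adj (adj S)
  have hJ : ∀ Φ f, J Φ f = Φ (adj S f) := fun Φ f => rfl
  let ψ : ((X →L[𝕜] 𝕜) →L[𝕜] 𝕜) →L[𝕜] ((W →L[𝕜] 𝕜) →L[𝕜] 𝕜) := adj φ
  have hψ : ∀ Φ g, ψ Φ g = Φ (φ g) := fun Φ g => rfl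
  have hJn : ∀ Φ, ‖J Φ‖ ≤ ‖Φ‖ := by
    intro Φ
    refine (norm_adj_apply_le (adj S) Φ).trans ?_
    calc ‖adj S‖ * ‖Φ‖ ≤ 1 * ‖Φ‖ := mul_le_mul_of_nonneg_right ((norm_adj_le S).trans hSn)
          (ContinuousLinearMap.opNorm_nonneg Φ)
      _ = ‖Φ‖ := one_mul _
  have hψn : ∀ Φ, ‖ψ Φ‖ ≤ ‖Φ‖ := by
    intro Φ
    refine (norm_adj_apply_le φ Φ).trans ?_
    calc ‖φ‖ * ‖Φ‖ ≤ 1 * ‖Φ‖ :=
          mul_le_mul_of_nonneg_right hφn (ContinuousLinearMap.opNorm_nonneg Φ)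
      _ = ‖Φ‖ := one_mul _
  have hSφ : ∀ g, adj S (φ g) = g := by
    intro g
    ext w
    rw [adj_apply, hφ]
    exact hR1 w g
  have hψJ : ∀ Φ, ψ (J Φ) = Φ := by
    intro Φ
    ext g
    rw [hψ, hJ, hSφ]
  have hJiso : ∀ Φ, ‖J Φ‖ = ‖Φ‖ := by
    intro Φ
    refine le_antisymm (hJn Φ) ?_
    have := hψn (J Φ)
    rw [hψJ] at this
    exact this
  have hJcan : ∀ w : W, J (inclusionInDoubleDual 𝕜 W w) = inclusionInDoubleDual 𝕜 X (w : X) := by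
    intro w
    ext f
    rw [hJ]
    rfl
  -- the singular part
  have hsing : ∀ Φ : (W →L[𝕜] 𝕜) →L[𝕜] 𝕜, QW Φ = 0 → Q (J Φ) = 0 := by
    intro Φ hΦ0
    obtain ⟨x, hx⟩ := hQr (J Φ)
    by_contra hne
    have hx0 : x ≠ 0 := by
      rintro rfl
      apply hne
      rw [hx, map_zero]
    have hxpos : 0 < ‖x‖ := norm_pos_iff.mpr hx0
    set Ξ : (X →L[𝕜] 𝕜) →L[𝕜] 𝕜 := J Φ - Q (J Φ) with hΞ
    have hΞ0 : 0 ≤ ‖Ξ‖ := ContinuousLinearMap.opNorm_nonneg Ξ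
    have hnorm : ‖Φ‖ = ‖x‖ + ‖Ξ‖ := by
      have h1 := hQL (J Φ)
      rw [hJiso] at h1
      rw [h1, hΞ, hx, norm_can]
    -- a functional almost attaining the norm of `Φ`
    obtain ⟨g, hg1, hg2⟩ := Φ.exists_lt_apply_of_lt_opNorm (r := ‖Ξ‖) (by
      have h1 : ‖Φ‖ = ‖x‖ + ‖Ξ‖ := hnorm
      change ‖Ξ‖ < ‖Φ‖
      linarith)
    have hc0 : Φ g ≠ 0 := by
      intro h0
      rw [h0, norm_zero] at hg2
      linarith
    obtain ⟨w1, hw1⟩ : ∃ w1 : W, g w1 = Φ g := by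
      have hg0 : ∃ w2 : W, g w2 ≠ 0 := by
        by_contra hcon
        push Not at hcon
        apply hc0
        have : g = 0 := by
          ext w
          exact hcon w
        rw [this, map_zero]
      obtain ⟨w2, hw2⟩ := hg0
      refine ⟨(Φ g / g w2) • w2, ?_⟩
      rw [map_smul, smul_eq_mul, div_mul_cancel₀ _ hw2]
    -- the distance estimate
    have hd : ∀ f : StrongDual 𝕜 X,
        (∀ v ∈ (LinearMap.ker g.toLinearMap).map W.subtype, f v = 0) →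
        ‖f (x - (w1 : X))‖ ≤ ‖Ξ‖ * ‖f‖ := by
      intro f hf
      have e1 : adj S f = (f (w1 : X) / Φ g) • g := by
        ext w
        rw [adj_apply]
        change f (w : X) = (f (w1 : X) / Φ g) * g w
        have e2 : f (((w - (g w / Φ g) • w1 : W) : X)) = 0 := by
          apply hf
          refine ⟨w - (g w / Φ g) • w1, ?_, rfl⟩
          change g (w - (g w / Φ g) • w1) = 0
          rw [map_sub, map_smul, smul_eq_mul, hw1, div_mul_cancel₀ _ hc0, sub_self]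
        have e3 : (((w - (g w / Φ g) • w1 : W) : X)) = (w : X) - (g w / Φ g) • (w1 : X) := rfl
        rw [e3, map_sub, map_smul, smul_eq_mul, sub_eq_zero] at e2
        rw [e2]
        ring
      have e4 : J Φ f = f (w1 : X) := by
        rw [hJ, e1, map_smul, smul_eq_mul, div_mul_cancel₀ _ hc0]
      have e5 : Ξ f = - f (x - (w1 : X)) := by
        have e6 : Ξ f = J Φ f - f x := by
          rw [hΞ, hx]
          rfl
        rw [e6, e4, map_sub]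
        ring
      have e7 := Ξ.le_opNorm f
      rw [e5, norm_neg] at e7
      exact e7
    obtain ⟨v, hv, hvd⟩ := dist_lemma _ _ ‖Ξ‖ hΞ0 hd ‖x‖ hxpos
    obtain ⟨v', hv', rfl⟩ := hv
    have hv'0 : g v' = 0 := hv'
    set w : W := w1 + v' with hw
    have hwx : ‖x - (w : X)‖ < ‖Ξ‖ + ‖x‖ := by
      have : x - (w : X) = x - (w1 : X) - W.subtype v' := by
        rw [hw]
        change x - ((w1 : X) + (v' : X)) = x - (w1 : X) - (v' : X)
        abel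
      rw [this]
      exact hvd
    have hgw : g w = Φ g := by rw [hw, map_add, hv'0, add_zero, hw1]
    have hwn : ‖Ξ‖ < ‖w‖ := by
      have h1 : ‖g w‖ ≤ ‖g‖ * ‖w‖ := g.le_opNorm w
      have h2 : ‖g‖ * ‖w‖ ≤ 1 * ‖w‖ := mul_le_mul_of_nonneg_right hg1.le (norm_nonneg w)
      rw [hgw] at h1
      have hg2' : ‖Ξ‖ < ‖Φ g‖ := hg2
      linarith
    -- the norm identity
    have hA := norm_identity (𝕜 := 𝕜) (A := (W →L[𝕜] 𝕜) →L[𝕜] 𝕜) (B := (X →L[𝕜] 𝕜) →L[𝕜] 𝕜)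
      QW Q J hJiso hWL hQL Φ (inclusionInDoubleDual 𝕜 W w) (inclusionInDoubleDual 𝕜 X x) hΦ0
      (hWX w) (by rw [hJcan]; exact hQX _) hx
    rw [hJcan, norm_can w] at hA
    have hB : ‖inclusionInDoubleDual 𝕜 X x - inclusionInDoubleDual 𝕜 X (w : X)‖ =
        ‖x - (w : X)‖ := by
      rw [← norm_can (𝕜 := 𝕜) (x - (w : X)), map_sub]
    have hC : ‖J Φ - inclusionInDoubleDual 𝕜 X x‖ = ‖Ξ‖ := by rw [hΞ, hx]
    have hA' : ‖inclusionInDoubleDual 𝕜 X x - inclusionInDoubleDual 𝕜 X (w : X)‖ +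
      ‖J Φ - inclusionInDoubleDual 𝕜 X x‖ = ‖w‖ + ‖Φ‖ := hA
    rw [hB, hC, hnorm] at hA'
    linarith
  ext Ψ
  constructor
  · rintro ⟨Θ, hΘ, rfl⟩
    -- the functional on the dual of `W`
    have hΘ' : ∀ f : StrongDual 𝕜 X, (∀ w ∈ W, f w = 0) → Θ f = 0 := hΘ
    have hJψ : J (ψ Θ) = Θ := by
      ext f
      rw [hJ, hψ]
      have h1 : Θ (φ (adj S f) - f) = 0 := by
        apply hΘ'
        intro w hw
        have h2 : (φ (adj S f) - f) w = φ (adj S f) w - f w := rfl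
        rw [h2, hφ]
        have h3 := hR1 ⟨w, hw⟩ (adj S f)
        have h4 : adj S f ⟨w, hw⟩ = f w := rfl
        rw [h4] at h3
        rw [h3, sub_self]
      rw [map_sub, sub_eq_zero] at h1
      exact h1
    obtain ⟨w0, hw0⟩ := hWr (ψ Θ)
    have h5 : QW (ψ Θ - inclusionInDoubleDual 𝕜 W w0) = 0 := by
      have h := map_sub QW (ψ Θ) (inclusionInDoubleDual 𝕜 W w0)
      rw [h, hw0, hWX, sub_self]
    have h6 := hsing _ h5
    refine ⟨(w0 : X), w0.2, ?_⟩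
    have h7 : Q (J (ψ Θ)) = Q (J (ψ Θ - inclusionInDoubleDual 𝕜 W w0)) +
        Q (J (inclusionInDoubleDual 𝕜 W w0)) := by
      have h := map_sub J (ψ Θ) (inclusionInDoubleDual 𝕜 W w0)
      rw [h]
      have h' := map_sub Q (J (ψ Θ)) (J (inclusionInDoubleDual 𝕜 W w0))
      rw [h']
      abel
    rw [hJψ, h6, zero_add, hJcan, hQX] at h7
    exact h7.symm
  · rintro ⟨w, hw, rfl⟩
    refine ⟨inclusionInDoubleDual 𝕜 X w, ?_, hQX w⟩
    intro f hf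
    exact hf w hw

end Pool.Agent.Helper37.LEmb
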